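import Mathlib

/-!
# MP_c6e1d2_co, Q1: `detLB(A) ≤ 18 · herpvdisc(A)` for every real matrix `A`

Sketch.  Let `B` be a `k × k` submatrix with `|det B| = D^k > 0` and `G = Bᵀ B`.
* For `T ⊆ [k]` let `δ(T) = det G_{T,T}`.  Maximising `δ(T) r^{|T|} |T|!` with `r = 3/(k D²)` gives a
  nonempty `T` with `δ(T \ i) ≤ r |T| δ(T)` for all `i ∈ T`, i.e. dual vectors `u_i` to the columns
  `b_i` (`i ∈ T`) with `‖u_i‖² ≤ r |T|`.
* For more than half of the sign vectors `ε ∈ {±1}^T`, `‖∑ ε_i u_i‖² ≤ 2 r |T|²`.  By the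
  Sauer-Shelah lemma these sign vectors shatter some `T' ⊆ T` with `|T'| ≥ |T|/2`, and so
  `(∑_{T'} |c_i|)² ≤ 2 r |T|² ‖∑_{T'} c_i b_i‖²` for all real `c`.
* Applied to the random coefficients `c_j = ∑_l ± v_j(l)` and the second and fourth moments of
  Rademacher sums this bounds `D` by `18 λ` for every `λ` feasible for the column set `T'`.
-/

set_option autoImplicit false
set_option linter.unusedSectionVars false

open Finset

namespace Pool.Agent.Results.MP_c6e1d2_co.DetLB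

/-! ### Signs -/

section signs

variable {α : Type*} [DecidableEq α]

/-- the sign vector of a set -/
def sgn (s : Finset α) (i : α) : ℝ := if i ∈ s then 1 else -1

lemma sum_insert_sgn (s T : Finset α) (i : α) (hi : i ∉ T) (hs : s ⊆ T) (a : α → ℝ) :
    ∑ j ∈ insert i T, sgn s j * a j = ∑ j ∈ T, sgn s j * a j - a i := by
  rw [Finset.sum_insert hi]
  have : sgn s i = -1 := by
    unfold sgn
    rw [if_neg (fun h => hi (hs h))]
  rw [this]
  ring

lemma sum_insert_sgn' (s T : Finset α) (i : α) (hi : i ∉ T) (a : α → ℝ) :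
    ∑ j ∈ insert i T, sgn (insert i s) j * a j = ∑ j ∈ T, sgn s j * a j + a i := by
  rw [Finset.sum_insert hi]
  have h1 : sgn (insert i s) i = 1 := by
    unfold sgn
    rw [if_pos (Finset.mem_insert_self _ _)]
  have h2 : ∀ j ∈ T, sgn (insert i s) j * a j = sgn s j * a j := by
    intro j hj
    have hne : j ≠ i := fun h => hi (h ▸ hj)
    unfold sgn
    by_cases hjs : j ∈ s
    · rw [if_pos hjs, if_pos (Finset.mem_insert_of_mem hjs)]
    · rw [if_neg hjs, if_neg]
      rw [Finset.mem_insert]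
      tauto
  rw [h1, Finset.sum_congr rfl h2]
  ring

lemma second_moment (T : Finset α) (a : α → ℝ) :
    ∑ s ∈ T.powerset, (∑ j ∈ T, sgn s j * a j) ^ 2 = 2 ^ T.card * ∑ j ∈ T, a j ^ 2 := by
  induction T using Finset.induction_on with
  | empty => simp
  | insert i T hi ih =>
    rw [Finset.sum_powerset_insert hi]
    have e1 : ∀ s ∈ T.powerset, (∑ j ∈ insert i T, sgn s j * a j) ^ 2
        = (∑ j ∈ T, sgn s j * a j - a i) ^ 2 := by
      intro s hs
      rw [sum_insert_sgn s T i hi (Finset.mem_powerset.mp hs)]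
    have e2 : ∀ s ∈ T.powerset, (∑ j ∈ insert i T, sgn (insert i s) j * a j) ^ 2
        = (∑ j ∈ T, sgn s j * a j + a i) ^ 2 := by
      intro s _
      rw [sum_insert_sgn' s T i hi]
    rw [Finset.sum_congr rfl e1, Finset.sum_congr rfl e2, ← Finset.sum_add_distrib]
    have e3 : ∀ s ∈ T.powerset, (∑ j ∈ T, sgn s j * a j - a i) ^ 2
        + (∑ j ∈ T, sgn s j * a j + a i) ^ 2
        = 2 * (∑ j ∈ T, sgn s j * a j) ^ 2 + 2 * a i ^ 2 := by
      intro s _
      ring
    rw [Finset.sum_congr rfl e3, Finset.sum_add_distrib, ← Finset.mul_sum, ih,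
      Finset.sum_const, Finset.card_powerset, Finset.card_insert_of_notMem hi,
      Finset.sum_insert hi, nsmul_eq_mul]
    push_cast
    ring

lemma fourth_moment (T : Finset α) (a : α → ℝ) :
    ∑ s ∈ T.powerset, (∑ j ∈ T, sgn s j * a j) ^ 4
      ≤ 3 * 2 ^ T.card * (∑ j ∈ T, a j ^ 2) ^ 2 := by
  induction T using Finset.induction_on with
  | empty => simp
  | insert i T hi ih =>
    rw [Finset.sum_powerset_insert hi]
    have e1 : ∀ s ∈ T.powerset, (∑ j ∈ insert i T, sgn s j * a j) ^ 4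
        = (∑ j ∈ T, sgn s j * a j - a i) ^ 4 := by
      intro s hs
      rw [sum_insert_sgn s T i hi (Finset.mem_powerset.mp hs)]
    have e2 : ∀ s ∈ T.powerset, (∑ j ∈ insert i T, sgn (insert i s) j * a j) ^ 4
        = (∑ j ∈ T, sgn s j * a j + a i) ^ 4 := by
      intro s _
      rw [sum_insert_sgn' s T i hi]
    rw [Finset.sum_congr rfl e1, Finset.sum_congr rfl e2, ← Finset.sum_add_distrib]
    have e3 : ∀ s ∈ T.powerset, (∑ j ∈ T, sgn s j * a j - a i) ^ 4
        + (∑ j ∈ T, sgn s j * a j + a i) ^ 4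
        = 2 * (∑ j ∈ T, sgn s j * a j) ^ 4 + 12 * a i ^ 2 * (∑ j ∈ T, sgn s j * a j) ^ 2
          + 2 * a i ^ 4 := by
      intro s _
      ring
    rw [Finset.sum_congr rfl e3, Finset.sum_add_distrib, Finset.sum_add_distrib,
      ← Finset.mul_sum, ← Finset.mul_sum, second_moment,
      Finset.sum_const, Finset.card_powerset, Finset.card_insert_of_notMem hi,
      Finset.sum_insert hi, nsmul_eq_mul]
    push_cast
    have hp : (0 : ℝ) ≤ 2 ^ T.card := by positivity
    have ha : 0 ≤ (2 : ℝ) ^ T.card * a i ^ 4 := by positivity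
    rw [pow_succ 2 T.card]
    nlinarith [ih, ha]

end signs

/-! ### Gram determinants -/

section gram

variable {k : ℕ}

/-- `G` on the rows in `T`, identity on the other rows -/
def NT (G : Matrix (Fin k) (Fin k) ℝ) (T : Finset (Fin k)) : Matrix (Fin k) (Fin k) ℝ :=
  fun i => if i ∈ T then G i else Pi.single i 1

lemma NT_empty (G : Matrix (Fin k) (Fin k) ℝ) : NT G ∅ = 1 := by
  ext i j
  simp only [NT, Finset.notMem_empty, if_false]
  rw [Matrix.one_apply, Pi.single_apply]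
  by_cases h : i = j
  · subst h
    simp
  · rw [if_neg h, if_neg (Ne.symm h)]

lemma NT_univ (G : Matrix (Fin k) (Fin k) ℝ) : NT G Finset.univ = G := by
  ext i j
  simp [NT]

lemma NT_erase (G : Matrix (Fin k) (Fin k) ℝ) (T : Finset (Fin k)) (i : Fin k) :
    NT G (T.erase i) = (NT G T).updateRow i (Pi.single i 1) := by
  ext a b
  rw [Matrix.updateRow_apply]
  by_cases h : a = i
  · subst h
    simp [NT]
  · rw [if_neg h]
    simp only [NT, Finset.mem_erase, h, ne_eq, not_false_eq_true, true_and]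

/-- the greedy choice of `T` -/
lemma exists_T (G : Matrix (Fin k) (Fin k) ℝ) (hk : 1 ≤ k) (E : ℝ) (hE : 0 < E)
    (hdet : G.det = E ^ k) :
    ∃ T : Finset (Fin k), T.Nonempty ∧ 0 < (NT G T).det ∧
      ∀ i ∈ T, (NT G (T.erase i)).det ≤ 3 / (k * E) * T.card * (NT G T).det := by
  have hk0 : (0 : ℝ) < k := by exact_mod_cast hk
  set r : ℝ := 3 / (k * E) with hr
  have hr0 : 0 < r := by positivity
  obtain ⟨T, -, hT⟩ := Finset.exists_max_image (Finset.univ : Finset (Finset (Fin k)))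
    (fun T => (NT G T).det * (r ^ T.card * (T.card.factorial : ℝ))) ⟨∅, Finset.mem_univ _⟩
  have huniv := hT Finset.univ (Finset.mem_univ _)
  have h1 : 1 < (NT G Finset.univ).det * (r ^ (Finset.univ : Finset (Fin k)).card
      * ((Finset.univ : Finset (Fin k)).card.factorial : ℝ)) := by
    rw [NT_univ, hdet, Finset.card_univ, Fintype.card_fin, hr, div_pow, mul_pow]
    have h2 : (k : ℝ) ^ k / (k.factorial : ℝ) ≤ Real.exp k :=
      Real.pow_div_factorial_le_exp _ hk0.le k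
    have h3 : Real.exp k < 3 ^ k := by
      have : Real.exp (k : ℝ) = Real.exp 1 ^ k := by
        rw [← Real.exp_nat_mul, mul_one]
      rw [this]
      exact pow_lt_pow_left₀ (lt_trans Real.exp_one_lt_d9 (by norm_num)) (Real.exp_pos _).le
        (by omega)
    have h4 : (0 : ℝ) < k.factorial := by exact_mod_cast Nat.factorial_pos k
    have h5 : (k : ℝ) ^ k < 3 ^ k * k.factorial := by
      rw [div_le_iff₀ h4] at h2
      nlinarith
    have h6 : (0 : ℝ) < (k : ℝ) ^ k := by positivity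
    have h7 : (0 : ℝ) < E ^ k := by positivity
    have h8 : E ^ k * (3 ^ k / ((k : ℝ) ^ k * E ^ k) * (k.factorial : ℝ))
        = 3 ^ k * k.factorial / (k : ℝ) ^ k := by
      field_simp
    rw [h8, lt_div_iff₀ h6]
    linarith
  have hpos : 1 < (NT G T).det * (r ^ T.card * (T.card.factorial : ℝ)) := lt_of_lt_of_le h1 huniv
  have hw : ∀ n : ℕ, (0 : ℝ) < r ^ n * (n.factorial : ℝ) := by
    intro n
    have : (0 : ℝ) < n.factorial := by exact_mod_cast Nat.factorial_pos n
    positivity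
  have hTpos : 0 < (NT G T).det := by
    by_contra hcon
    push Not at hcon
    have := mul_nonpos_of_nonpos_of_nonneg hcon (hw T.card).le
    linarith
  refine ⟨T, ?_, hTpos, ?_⟩
  · rw [Finset.nonempty_iff_ne_empty]
    rintro rfl
    rw [NT_empty, Matrix.det_one] at hpos
    simp at hpos
  · intro i hi
    have h2 := hT (T.erase i) (Finset.mem_univ _)
    have h3 : (T.erase i).card = T.card - 1 := Finset.card_erase_of_mem hi
    obtain ⟨m, hm⟩ : ∃ m, T.card = m + 1 := by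
      refine ⟨T.card - 1, ?_⟩
      have : 0 < T.card := Finset.card_pos.mpr ⟨i, hi⟩
      omega
    beta_reduce at h2
    rw [h3, hm, Nat.add_sub_cancel, pow_succ, Nat.factorial_succ] at h2
    push_cast at h2
    have h4 : (NT G (T.erase i)).det * (r ^ m * (m.factorial : ℝ))
        ≤ (r * (m + 1) * (NT G T).det) * (r ^ m * (m.factorial : ℝ)) := by
      calc _ ≤ _ := h2
        _ = _ := by ring
    have h5 := le_of_mul_le_mul_right h4 (hw m)
    rw [hm]
    push_cast
    exact h5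

/-- the `ℓ₁` lower bound on a large set of columns -/
lemma exists_l1 (B : Matrix (Fin k) (Fin k) ℝ) (hk : 1 ≤ k) (E : ℝ) (hE : 0 < E)
    (hdet : (B.transpose * B).det = E ^ k) :
    ∃ (T' : Finset (Fin k)) (n : ℕ), 1 ≤ n ∧ n ≤ 2 * T'.card ∧
      ∀ c : Fin k → ℝ, (∑ j ∈ T', |c j|) ^ 2
        ≤ 2 * (3 / (k * E) * n ^ 2) * ∑ r, (∑ j ∈ T', B r j * c j) ^ 2 := by
  obtain ⟨T, hTne, hNpos, hT⟩ := exists_T (B.transpose * B) hk E hE hdet
  set G := B.transpose * B with hG
  set r : ℝ := 3 / (k * E) with hr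
  have hk0 : (0 : ℝ) < k := by exact_mod_cast hk
  have hr0 : 0 < r := by positivity
  set N := NT G T with hN
  set H := N⁻¹ with hH
  set n := T.card with hn
  have hn1 : 1 ≤ n := Finset.card_pos.mpr hTne
  have hn0 : (0 : ℝ) < n := by exact_mod_cast hn1
  have hNH : N * H = 1 := Matrix.mul_nonsing_inv N (isUnit_iff_ne_zero.mpr hNpos.ne')
  have hH0 : ∀ l, l ∉ T → ∀ i, H l i = (1 : Matrix (Fin k) (Fin k) ℝ) l i := by
    intro l hl i
    rw [← hNH, Matrix.mul_apply]
    have : ∀ j, N l j = (Pi.single l 1 : Fin k → ℝ) j := by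
      intro j
      rw [hN]
      simp only [NT, hl, if_false]
    simp only [this]
    rw [Finset.sum_eq_single l]
    · simp
    · intro b _ hb
      rw [Pi.single_eq_of_ne hb, zero_mul]
    · intro h
      exact absurd (Finset.mem_univ _) h
  have hGH : ∀ l, l ∈ T → ∀ i, (G * H) l i = (1 : Matrix (Fin k) (Fin k) ℝ) l i := by
    intro l hl i
    rw [← hNH, Matrix.mul_apply, Matrix.mul_apply]
    refine Finset.sum_congr rfl fun j _ => ?_
    have : N l j = G l j := by
      rw [hN]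
      simp only [NT, hl, if_true]
    rw [this]
  have hHd : ∀ i ∈ T, H i i ≤ r * n := by
    intro i hi
    have h1 := hT i hi
    rw [NT_erase] at h1
    have h2 : H i i = N.det⁻¹ * (N.updateRow i (Pi.single i 1)).det := by
      rw [hH, Matrix.inv_def, Matrix.smul_apply, Matrix.adjugate_apply, Ring.inverse_eq_inv',
        smul_eq_mul]
    rw [h2, inv_mul_le_iff₀ hNpos]
    calc _ ≤ _ := h1
      _ = _ := by ring
  set U := B * H with hU
  have hdual : ∀ l ∈ T, ∀ i, ∑ a, B a l * U a i = (1 : Matrix (Fin k) (Fin k) ℝ) l i := by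
    intro l hl i
    rw [← hGH l hl i, hG, Matrix.mul_assoc, ← hU, Matrix.mul_apply]
    rfl
  have hnorm : ∀ i ∈ T, ∑ a, U a i ^ 2 = H i i := by
    intro i hi
    have h1 : ∑ a, U a i ^ 2 = ∑ l, H l i * (G * H) l i := by
      have h2 : (U.transpose * U) i i = (H.transpose * (G * H)) i i := by
        rw [hU, hG, Matrix.transpose_mul, Matrix.mul_assoc, Matrix.mul_assoc]
      rw [Matrix.mul_apply, Matrix.mul_apply] at h2
      simp only [Matrix.transpose_apply] at h2
      rw [← h2]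
      exact Finset.sum_congr rfl fun a _ => by ring
    rw [h1, Finset.sum_eq_single i]
    · rw [hGH i hi i, Matrix.one_apply_eq, mul_one]
    · intro l _ hl
      by_cases hlT : l ∈ T
      · rw [hGH l hlT i, Matrix.one_apply_ne hl, mul_zero]
      · rw [hH0 l hlT i, Matrix.one_apply_ne hl, zero_mul]
    · intro h
      exact absurd (Finset.mem_univ _) h
  set V : ℝ := r * n ^ 2 with hV
  have hV0 : 0 < V := by positivity
  set f : Finset (Fin k) → ℝ := fun s => ∑ a, (∑ i ∈ T, sgn s i * U a i) ^ 2 with hf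
  have hfsum : ∑ s ∈ T.powerset, f s ≤ 2 ^ n * V := by
    rw [hf, Finset.sum_comm]
    have h1 : ∀ a ∈ (Finset.univ : Finset (Fin k)),
        ∑ s ∈ T.powerset, (∑ i ∈ T, sgn s i * U a i) ^ 2 = 2 ^ n * ∑ i ∈ T, U a i ^ 2 := by
      intro a _
      exact second_moment T (fun i => U a i)
    rw [Finset.sum_congr rfl h1, ← Finset.mul_sum, Finset.sum_comm, Finset.sum_congr rfl hnorm]
    apply mul_le_mul_of_nonneg_left _ (by positivity)
    calc ∑ i ∈ T, H i i ≤ ∑ _i ∈ T, r * n := Finset.sum_le_sum hHd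
      _ = V := by
        rw [Finset.sum_const, nsmul_eq_mul, hV]
        ring
  set 𝒜 := T.powerset.filter (fun s => f s ≤ 2 * V) with h𝒜
  set 𝒞 := T.powerset.filter (fun s => ¬ f s ≤ 2 * V) with h𝒞
  have hcard : 𝒜.card + 𝒞.card = 2 ^ n := by
    rw [h𝒜, h𝒞, Finset.card_filter_add_card_filter_not, Finset.card_powerset]
  have hA : 2 ^ n < 2 * 𝒜.card := by
    by_contra hcon
    push Not at hcon
    have h1 : 2 ^ n ≤ 2 * 𝒞.card := by omega
    have h2 : 𝒞.Nonempty := by
      rw [← Finset.card_pos]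
      have : 0 < 2 ^ n := by positivity
      omega
    have h3 : ∑ _s ∈ 𝒞, 2 * V < ∑ s ∈ 𝒞, f s := by
      apply Finset.sum_lt_sum_of_nonempty h2
      intro s hs
      rw [h𝒞, Finset.mem_filter] at hs
      exact lt_of_not_ge hs.2
    have h4 : ∑ s ∈ 𝒞, f s ≤ ∑ s ∈ T.powerset, f s := by
      apply Finset.sum_le_sum_of_subset_of_nonneg (Finset.filter_subset _ _)
      intro s _ _
      exact Finset.sum_nonneg fun a _ => sq_nonneg _
    rw [Finset.sum_const, nsmul_eq_mul] at h3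
    have h5 : (2 : ℝ) ^ n ≤ 2 * 𝒞.card := by exact_mod_cast h1
    nlinarith
  have hshat : ∃ T' ∈ 𝒜.shatterer, n ≤ 2 * T'.card := by
    by_contra hcon
    push Not at hcon
    have hsub : ∀ s ∈ 𝒜.shatterer, s ⊆ T := by
      intro s hs
      rw [Finset.mem_shatterer] at hs
      obtain ⟨u, hu, hsu⟩ := hs (Finset.Subset.refl s)
      rw [h𝒜, Finset.mem_filter, Finset.mem_powerset] at hu
      intro x hx
      rw [← hsu] at hx
      exact hu.1 (Finset.mem_inter.mp hx).2
    have hinj : Set.InjOn (fun s => T \ s) (𝒜.shatterer : Set (Finset (Fin k))) := by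
      intro s hs t ht hst
      have h1 := hsub s (Finset.mem_coe.mp hs)
      have h2 := hsub t (Finset.mem_coe.mp ht)
      have h3 : T \ (T \ s) = T \ (T \ t) := by
        simp only at hst
        rw [hst]
      rwa [Finset.sdiff_sdiff_eq_self h1, Finset.sdiff_sdiff_eq_self h2] at h3
    have hdisj : Disjoint 𝒜.shatterer (𝒜.shatterer.image (fun s => T \ s)) := by
      rw [Finset.disjoint_left]
      intro s hs hs2
      rw [Finset.mem_image] at hs2
      obtain ⟨t, ht, hts⟩ := hs2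
      have h1 := hcon s hs
      have h2 := hcon t ht
      have h3 : (T \ t).card = T.card - t.card := Finset.card_sdiff_of_subset (hsub t ht)
      rw [hts] at h3
      omega
    have hun : 𝒜.shatterer ∪ 𝒜.shatterer.image (fun s => T \ s) ⊆ T.powerset := by
      intro s hs
      rw [Finset.mem_union] at hs
      rw [Finset.mem_powerset]
      rcases hs with hs | hs
      · exact hsub s hs
      · rw [Finset.mem_image] at hs
        obtain ⟨t, _, rfl⟩ := hs
        exact Finset.sdiff_subset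
    have h1 := Finset.card_le_card hun
    rw [Finset.card_union_of_disjoint hdisj, Finset.card_image_of_injOn hinj,
      Finset.card_powerset, ← hn] at h1
    have h2 := Finset.card_le_card_shatterer 𝒜
    omega
  obtain ⟨T', hT', hcardT'⟩ := hshat
  rw [Finset.mem_shatterer] at hT'
  have hsubT : T' ⊆ T := by
    obtain ⟨u, hu, hsu⟩ := hT' (Finset.Subset.refl T')
    rw [h𝒜, Finset.mem_filter, Finset.mem_powerset] at hu
    intro x hx
    rw [← hsu] at hx
    exact hu.1 (Finset.mem_inter.mp hx).2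
  refine ⟨T', n, hn1, hcardT', ?_⟩
  intro c
  obtain ⟨s, hs, hst⟩ := hT' (Finset.filter_subset (fun j => 0 ≤ c j) T')
  rw [h𝒜, Finset.mem_filter] at hs
  have h1 : ∑ j ∈ T', |c j| = ∑ a, (∑ i ∈ T, sgn s i * U a i) * (∑ j ∈ T', B a j * c j) := by
    have h2 : ∀ a ∈ (Finset.univ : Finset (Fin k)),
        (∑ i ∈ T, sgn s i * U a i) * (∑ j ∈ T', B a j * c j)
        = ∑ j ∈ T', ∑ i ∈ T, c j * sgn s i * (B a j * U a i) := by
      intro a _
      rw [Finset.sum_mul_sum, Finset.sum_comm]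
      refine Finset.sum_congr rfl fun j _ => Finset.sum_congr rfl fun i _ => ?_
      ring
    rw [Finset.sum_congr rfl h2, Finset.sum_comm]
    refine Finset.sum_congr rfl fun j hj => ?_
    rw [Finset.sum_comm]
    have h3 : ∀ i ∈ T, ∑ a, c j * sgn s i * (B a j * U a i)
        = c j * sgn s i * (1 : Matrix (Fin k) (Fin k) ℝ) j i := by
      intro i _
      rw [← Finset.mul_sum, hdual j (hsubT hj) i]
    rw [Finset.sum_congr rfl h3, Finset.sum_eq_single j]
    · rw [Matrix.one_apply_eq, mul_one]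
      have h4 : j ∈ s ↔ 0 ≤ c j := by
        have h5 : j ∈ T' ∩ s ↔ j ∈ Finset.filter (fun j => 0 ≤ c j) T' := by rw [hst]
        rw [Finset.mem_inter, Finset.mem_filter] at h5
        tauto
      unfold sgn
      by_cases h6 : 0 ≤ c j
      · rw [if_pos (h4.mpr h6), mul_one, abs_of_nonneg h6]
      · rw [if_neg (fun h => h6 (h4.mp h)), abs_of_neg (lt_of_not_ge h6)]
        ring
    · intro i _ hij
      rw [Matrix.one_apply_ne (Ne.symm hij), mul_zero]
    · intro h
      exact absurd (hsubT hj) h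
  rw [h1]
  calc (∑ a, (∑ i ∈ T, sgn s i * U a i) * (∑ j ∈ T', B a j * c j)) ^ 2
      ≤ (∑ a, (∑ i ∈ T, sgn s i * U a i) ^ 2) * ∑ a, (∑ j ∈ T', B a j * c j) ^ 2 :=
        Finset.sum_mul_sq_le_sq_mul_sq _ _ _
    _ ≤ 2 * V * ∑ a, (∑ j ∈ T', B a j * c j) ^ 2 := by
        apply mul_le_mul_of_nonneg_right hs.2
        exact Finset.sum_nonneg fun a _ => sq_nonneg _

end gram

/-! ### The two quantities -/

/-- determinant lower bound: the maximum of `|det A_{S,T}|^{1/k}` over all `k ≥ 1` and all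
`S ⊆ [m]`, `T ⊆ [n]` with `|S| = |T| = k` (the index sets are the ranges of order embeddings) -/
noncomputable def detLB {m n : ℕ} (A : Matrix (Fin m) (Fin n) ℝ) : ℝ :=
  sSup {x : ℝ | ∃ k : ℕ, 1 ≤ k ∧ ∃ (f : Fin k ↪o Fin m) (g : Fin k ↪o Fin n),
    x = |(A.submatrix f g).det| ^ (1 / (k : ℝ))}

/-- `(A, S, λ)` is feasible -/
def Feasible {m n : ℕ} (A : Matrix (Fin m) (Fin n) ℝ) (S : Finset (Fin n)) (lam : ℝ) : Prop :=
  ∃ (d : ℕ) (v : Fin n → EuclideanSpace ℝ (Fin d)),
    (∀ i, ‖∑ j ∈ S, A i j • v j‖ ^ 2 ≤ lam ^ 2) ∧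
    (S.card : ℝ) / 2 ≤ ∑ j, ‖v j‖ ^ 2 ∧
    (∀ j ∈ S, ‖v j‖ ^ 2 ≤ 1) ∧ (∀ j, j ∉ S → v j = 0)

/-- hereditary partial vector discrepancy: the smallest `λ ≥ 0` feasible for all `S` -/
noncomputable def herpvdisc {m n : ℕ} (A : Matrix (Fin m) (Fin n) ℝ) : ℝ :=
  sInf {lam : ℝ | 0 ≤ lam ∧ ∀ S : Finset (Fin n), Feasible A S lam}

lemma abs_ge (t : ℝ) : t ^ 2 - 4 / 27 * t ^ 4 ≤ |t| := by
  have h0 : 0 ≤ |t| := abs_nonneg t
  have h2 : t ^ 2 = |t| ^ 2 := (sq_abs t).symm
  have h4 : t ^ 4 = |t| ^ 4 := by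
    rw [show (4 : ℕ) = 2 * 2 by norm_num, pow_mul, pow_mul, sq_abs]
  rw [h2, h4]
  have h5 : 0 ≤ |t| * ((|t| - 3 / 2) ^ 2 * (|t| + 3)) := by positivity
  nlinarith [h5]

/-- lower bound for the first absolute moment of the Rademacher sum of a vector of norm `≤ 1` -/
lemma first_moment {d : ℕ} (x : Fin d → ℝ) (hx : ∑ l, x l ^ 2 ≤ 1) :
    2 ^ d * (5 / 9 * ∑ l, x l ^ 2)
      ≤ ∑ s ∈ (Finset.univ : Finset (Fin d)).powerset, |∑ l, sgn s l * x l| := by
  have h1 : ∑ s ∈ (Finset.univ : Finset (Fin d)).powerset,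
      ((∑ l, sgn s l * x l) ^ 2 - 4 / 27 * (∑ l, sgn s l * x l) ^ 4)
      ≤ ∑ s ∈ (Finset.univ : Finset (Fin d)).powerset, |∑ l, sgn s l * x l| :=
    Finset.sum_le_sum fun s _ => abs_ge _
  rw [Finset.sum_sub_distrib, ← Finset.mul_sum, second_moment] at h1
  have h2 := fourth_moment (Finset.univ : Finset (Fin d)) x
  rw [Finset.card_univ, Fintype.card_fin] at h1 h2
  refine le_trans ?_ h1
  have h3 : 0 ≤ ∑ l, x l ^ 2 := Finset.sum_nonneg fun l _ => sq_nonneg _
  have h4 : (0 : ℝ) < 2 ^ d := by positivity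
  have h5 : (∑ l, x l ^ 2) ^ 2 ≤ ∑ l, x l ^ 2 := by nlinarith
  have h6 : 2 ^ d * (∑ l, x l ^ 2) ^ 2 ≤ 2 ^ d * ∑ l, x l ^ 2 :=
    mul_le_mul_of_nonneg_left h5 h4.le
  nlinarith

/-- every feasible `λ` bounds every normalised subdeterminant -/
lemma main_bound {m n : ℕ} (A : Matrix (Fin m) (Fin n) ℝ) (lam : ℝ) (hlam : 0 ≤ lam)
    (hf : ∀ S : Finset (Fin n), Feasible A S lam) (k : ℕ) (hk : 1 ≤ k) (f : Fin k ↪o Fin m)
    (g : Fin k ↪o Fin n) : |(A.submatrix f g).det| ^ (1 / (k : ℝ)) ≤ 18 * lam := by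
  set B := A.submatrix f g with hB
  have hk0 : (0 : ℝ) < k := by exact_mod_cast hk
  by_cases hdet0 : B.det = 0
  · rw [hdet0, abs_zero, Real.zero_rpow (by positivity)]
    positivity
  set D := |B.det| ^ (1 / (k : ℝ)) with hD
  have hDpos : 0 < D := Real.rpow_pos_of_pos (abs_pos.mpr hdet0) _
  have hDk : D ^ k = |B.det| := by
    rw [hD, one_div]
    exact Real.rpow_inv_natCast_pow (abs_nonneg _) (by omega)
  have hdet : (B.transpose * B).det = (D ^ 2) ^ k := by
    rw [Matrix.det_mul, Matrix.det_transpose, ← pow_mul, mul_comm 2 k, pow_mul, hDk, sq_abs]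
    ring
  obtain ⟨T, N, hN1, hNT, hl1⟩ := exists_l1 B hk (D ^ 2) (by positivity) hdet
  obtain ⟨d, v, h1, h2, h3, h4⟩ := hf (T.map g.toEmbedding)
  have hN0 : (0 : ℝ) < N := by exact_mod_cast hN1
  -- restriction to `T`
  have hx2 : (T.card : ℝ) / 2 ≤ ∑ j ∈ T, ‖v (g j)‖ ^ 2 := by
    rw [Finset.card_map] at h2
    refine le_trans h2 (le_of_eq ?_)
    have : ∑ j, ‖v j‖ ^ 2 = ∑ j ∈ T.map g.toEmbedding, ‖v j‖ ^ 2 := by
      symm
      apply Finset.sum_subset (Finset.subset_univ _)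
      intro j _ hj
      rw [h4 j hj]
      simp
    rw [this, Finset.sum_map]
    rfl
  have hx3 : ∀ j ∈ T, ‖v (g j)‖ ^ 2 ≤ 1 := by
    intro j hj
    exact h3 (g j) (Finset.mem_map_of_mem g.toEmbedding hj)
  have hx1 : ∀ r, ‖∑ j ∈ T, B r j • v (g j)‖ ^ 2 ≤ lam ^ 2 := by
    intro r
    have := h1 (f r)
    rw [Finset.sum_map] at this
    exact this
  have hnsq : ∀ x : EuclideanSpace ℝ (Fin d), ‖x‖ ^ 2 = ∑ l, x l ^ 2 := by
    intro x
    rw [EuclideanSpace.norm_sq_eq]
    exact Finset.sum_congr rfl fun l _ => by rw [Real.norm_eq_abs, sq_abs]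
  set P := (Finset.univ : Finset (Fin d)).powerset with hP
  have hPc : P.card = 2 ^ d := by
    rw [hP, Finset.card_powerset, Finset.card_univ, Fintype.card_fin]
  set c : Finset (Fin d) → Fin k → ℝ := fun s j => ∑ l, sgn s l * v (g j) l with hc
  set W : ℝ := 2 * (3 / (k * D ^ 2) * N ^ 2) with hW
  have hW0 : 0 ≤ W := by positivity
  -- upper bound
  have hup : ∑ s ∈ P, (∑ j ∈ T, |c s j|) ^ 2 ≤ W * (k * (2 ^ d * lam ^ 2)) := by
    calc ∑ s ∈ P, (∑ j ∈ T, |c s j|) ^ 2
        ≤ ∑ s ∈ P, W * ∑ r, (∑ j ∈ T, B r j * c s j) ^ 2 := Finset.sum_le_sum fun s _ => hl1 (c s)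
      _ = W * ∑ r, ∑ s ∈ P, (∑ j ∈ T, B r j * c s j) ^ 2 := by
          rw [← Finset.mul_sum, Finset.sum_comm]
      _ ≤ W * ∑ _r : Fin k, 2 ^ d * lam ^ 2 := by
          apply mul_le_mul_of_nonneg_left _ hW0
          apply Finset.sum_le_sum
          intro r _
          have e1 : ∀ s ∈ P, (∑ j ∈ T, B r j * c s j) ^ 2
              = (∑ l, sgn s l * (∑ j ∈ T, B r j • v (g j)) l) ^ 2 := by
            intro s _
            congr 1
            have e2 : ∀ l, (∑ j ∈ T, B r j • v (g j)) l = ∑ j ∈ T, B r j * v (g j) l := by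
              intro l
              simp
            simp only [e2, Finset.mul_sum, hc]
            rw [Finset.sum_comm]
            refine Finset.sum_congr rfl fun l _ => Finset.sum_congr rfl fun j _ => ?_
            ring
          rw [Finset.sum_congr rfl e1, hP, second_moment, Finset.card_univ, Fintype.card_fin,
            ← hnsq]
          exact mul_le_mul_of_nonneg_left (hx1 r) (by positivity)
      _ = W * (k * (2 ^ d * lam ^ 2)) := by
          rw [Finset.sum_const, Finset.card_univ, Fintype.card_fin, nsmul_eq_mul]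
  -- lower bound
  have hlow : 2 ^ d * (5 / 36 * N) ≤ ∑ s ∈ P, ∑ j ∈ T, |c s j| := by
    rw [Finset.sum_comm]
    have e1 : ∀ j ∈ T, 2 ^ d * (5 / 9 * ‖v (g j)‖ ^ 2) ≤ ∑ s ∈ P, |c s j| := by
      intro j hj
      rw [hnsq]
      apply first_moment
      rw [← hnsq]
      exact hx3 j hj
    refine le_trans ?_ (Finset.sum_le_sum e1)
    rw [← Finset.mul_sum, ← Finset.mul_sum]
    apply mul_le_mul_of_nonneg_left _ (by positivity)
    have h5 : (N : ℝ) ≤ 2 * T.card := by exact_mod_cast hNT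
    linarith
  have hcs : (∑ s ∈ P, ∑ j ∈ T, |c s j|) ^ 2 ≤ 2 ^ d * ∑ s ∈ P, (∑ j ∈ T, |c s j|) ^ 2 := by
    have := sq_sum_le_card_mul_sum_sq (s := P) (f := fun s => ∑ j ∈ T, |c s j|)
    rw [hPc] at this
    push_cast at this
    exact this
  have h2d : (0 : ℝ) < 2 ^ d := by positivity
  have hfin : (2 ^ d * (5 / 36 * (N : ℝ))) ^ 2 ≤ 2 ^ d * (W * (k * (2 ^ d * lam ^ 2))) := by
    calc (2 ^ d * (5 / 36 * (N : ℝ))) ^ 2 ≤ (∑ s ∈ P, ∑ j ∈ T, |c s j|) ^ 2 :=
          pow_le_pow_left₀ (by positivity) hlow 2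
      _ ≤ _ := hcs
      _ ≤ _ := mul_le_mul_of_nonneg_left hup h2d.le
  have hfin2 : 25 / 1296 * D ^ 2 ≤ 6 * lam ^ 2 := by
    have e1 : (2 ^ d * (5 / 36 * (N : ℝ))) ^ 2 = (2 ^ d) ^ 2 * N ^ 2 * (25 / 1296) := by ring
    have e2 : (2 : ℝ) ^ d * (W * (k * (2 ^ d * lam ^ 2)))
        = (2 ^ d) ^ 2 * N ^ 2 * (6 * lam ^ 2 / D ^ 2) := by
      rw [hW]
      field_simp
      ring
    rw [e1, e2] at hfin
    have e3 := le_of_mul_le_mul_left hfin (by positivity)
    rw [le_div_iff₀ (by positivity)] at e3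
    exact e3
  rw [← pow_le_pow_iff_left₀ hDpos.le (by positivity) (two_ne_zero)]
  nlinarith [sq_nonneg lam]

/-- some `λ` is feasible for all column sets -/
lemma feasible_nonempty {m n : ℕ} (A : Matrix (Fin m) (Fin n) ℝ) :
    ∃ lam : ℝ, 0 ≤ lam ∧ ∀ S : Finset (Fin n), Feasible A S lam := by
  refine ⟨∑ i, ∑ j, |A i j|, Finset.sum_nonneg fun i _ => Finset.sum_nonneg fun j _ =>
    abs_nonneg _, ?_⟩
  intro S
  have hnorm : ‖(EuclideanSpace.single (0 : Fin 1) (1 : ℝ))‖ = 1 := by simp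
  refine ⟨1, fun j => if j ∈ S then EuclideanSpace.single 0 1 else 0, ?_, ?_, ?_, ?_⟩
  · intro i
    apply pow_le_pow_left₀ (norm_nonneg _)
    calc ‖∑ j ∈ S, A i j • (if j ∈ S then EuclideanSpace.single (0 : Fin 1) (1 : ℝ) else 0)‖
        ≤ ∑ j ∈ S, ‖A i j • (if j ∈ S then EuclideanSpace.single (0 : Fin 1) (1 : ℝ) else 0)‖ :=
          norm_sum_le _ _
      _ = ∑ j ∈ S, |A i j| := by
          refine Finset.sum_congr rfl fun j hj => ?_
          rw [if_pos hj, norm_smul, hnorm, mul_one, Real.norm_eq_abs]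
      _ ≤ ∑ j, |A i j| := Finset.sum_le_sum_of_subset_of_nonneg (Finset.subset_univ _)
          fun j _ _ => abs_nonneg _
      _ ≤ ∑ i, ∑ j, |A i j| := Finset.single_le_sum
          (f := fun i => ∑ j, |A i j|) (fun i _ => Finset.sum_nonneg fun j _ => abs_nonneg _)
          (Finset.mem_univ i)
  · have e : ∑ j, ‖(if j ∈ S then EuclideanSpace.single (0 : Fin 1) (1 : ℝ) else 0)‖ ^ 2
        = (S.card : ℝ) := by
      have e1 : ∀ j ∈ (Finset.univ : Finset (Fin n)),
          ‖(if j ∈ S then EuclideanSpace.single (0 : Fin 1) (1 : ℝ) else 0)‖ ^ 2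
          = if j ∈ S then (1 : ℝ) else 0 := by
        intro j _
        by_cases hj : j ∈ S
        · rw [if_pos hj, if_pos hj, hnorm, one_pow]
        · rw [if_neg hj, if_neg hj]
          simp
      rw [Finset.sum_congr rfl e1]
      simp
    rw [e]
    have : (0 : ℝ) ≤ S.card := by positivity
    linarith
  · intro j hj
    beta_reduce
    rw [if_pos hj, hnorm, one_pow]
  · intro j hj
    beta_reduce
    rw [if_neg hj]

/-- `detLB(A) ≤ 18 · herpvdisc(A)` for every real matrix -/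
theorem detLB_le {m n : ℕ} (hm : 1 ≤ m) (hn : 1 ≤ n) (A : Matrix (Fin m) (Fin n) ℝ) :
    detLB A ≤ 18 * herpvdisc A := by
  have h1 : ∀ lam ∈ {lam : ℝ | 0 ≤ lam ∧ ∀ S : Finset (Fin n), Feasible A S lam},
      detLB A / 18 ≤ lam := by
    intro lam hl
    have h2 : detLB A ≤ 18 * lam := by
      apply csSup_le
      · exact ⟨|(A.submatrix (Fin.castLEOrderEmb hm) (Fin.castLEOrderEmb hn)).det|
          ^ (1 / ((1 : ℕ) : ℝ)), 1, le_refl 1, Fin.castLEOrderEmb hm, Fin.castLEOrderEmb hn, rfl⟩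
      · rintro x ⟨k, hk, f, g, rfl⟩
        exact main_bound A lam hl.1 hl.2 k hk f g
    linarith
  have h3 : detLB A / 18 ≤ herpvdisc A := by
    apply le_csInf _ h1
    obtain ⟨lam, h4, h5⟩ := feasible_nonempty A
    exact ⟨lam, h4, h5⟩
  linarith

/-- the set of normalised subdeterminants is finite, so that `detLB` is a genuine maximum -/
lemma detLB_set_finite {m n : ℕ} (A : Matrix (Fin m) (Fin n) ℝ) :
    {x : ℝ | ∃ k : ℕ, 1 ≤ k ∧ ∃ (f : Fin k ↪o Fin m) (g : Fin k ↪o Fin n),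
      x = |(A.submatrix f g).det| ^ (1 / (k : ℝ))}.Finite := by
  have h : {x : ℝ | ∃ k : ℕ, 1 ≤ k ∧ ∃ (f : Fin k ↪o Fin m) (g : Fin k ↪o Fin n),
      x = |(A.submatrix f g).det| ^ (1 / (k : ℝ))}
      ⊆ ⋃ k ∈ Finset.range (m + 1), Set.range (fun q : (Fin k ↪o Fin m) × (Fin k ↪o Fin n) =>
        |(A.submatrix q.1 q.2).det| ^ (1 / (k : ℝ))) := by
    rintro x ⟨k, hk, f, g, rfl⟩
    have hkm : k ≤ m := by
      have := Fintype.card_le_of_injective f f.injective
      rwa [Fintype.card_fin, Fintype.card_fin] at this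
    simp only [Set.mem_iUnion]
    exact ⟨k, Finset.mem_range.mpr (by omega), (f, g), rfl⟩
  refine Set.Finite.subset (Set.Finite.biUnion (Finset.finite_toSet _) fun k _ => ?_) h
  exact Set.finite_range _

/-- **Q1**, affirmative, with `C = 18`: `detLB A ≤ 18 · herpvdisc A` for every real matrix. -/
theorem result : ∃ C : ℝ, 0 < C ∧ C ≤ 18 ∧ ∀ m n : ℕ, 1 ≤ m → 1 ≤ n →
    ∀ A : Matrix (Fin m) (Fin n) ℝ, detLB A ≤ C * herpvdisc A :=
  ⟨18, by norm_num, le_refl _, fun _ _ hm hn A => detLB_le hm hn A⟩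

end Pool.Agent.Results.MP_c6e1d2_co.DetLB
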